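import Pool.Agent.W544.FF.Defs3
import Pool.Agent.W143.PG.Sep

/-!
# The generalized Hodge conjecture for the product of surfaces and an abelian variety
(statements of the parts)
-/

open Matrix Finset Module

namespace Pool.Agent.W547.GHX

open Pool.Agent.W544.PG Pool.Agent.W544.FF Pool.Agent.W143.PG

noncomputable section

/-- the complex span of a rational space of functions -/
def cspN {X : Type} (W : Submodule ℚ (X → ℚ)) : Submodule ℂ (X → ℂ) :=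
  Submodule.span ℂ {s | ∃ w ∈ W, s = fun J => (w J : ℂ)}

/-- (STAB) a rational space of forms stable under `X` is stable under `hX X` -/
def S_stab : Prop := ∀ (N κ : Type) [Fintype N] [DecidableEq N] [Fintype κ] [DecidableEq κ]
  (X : Matrix κ κ ℂ), X.map (starRingEnd ℂ) = -X →
  (∀ z : κ → ℂ, ∃ (q : ℕ) (f : Fin q → κ → ℂ) (e : Fin q → ℝ), z = ∑ i, f i ∧
    ∀ i, X *ᵥ f i = (e i : ℂ) • f i) →
  ∀ W : Submodule ℚ ((N → κ) → ℚ), (∀ w ∈ W, aN X (fun J => (w J : ℂ)) ∈ cspN W) →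
  ∀ Y ∈ hX X, ∀ w ∈ W, aN Y (fun J => (w J : ℂ)) ∈ cspN W

/-- (G1SP) `S_g1s` with a condition on the eigenvalues `e ≥ 0` only -/
def S_g1sp : Prop := ∀ (n r k b l : ℕ) (c : Fin n → Fin r) (a : Fin k → Fin r) (f : Fin k → Fin b)
  (p : Fin r → ℕ) (X : Matrix (Fin n) (Fin n) ℂ), Xᵀ = -X → X * X * X = X → BD c X →
  (∀ i, ∑ y with c y = i, (X * X) y y = 2 * (p i : ℂ)) → (∀ j j', f j = f j' → a j = a j') →
  (∀ i, nb f a i ≤ p i ∧ 2 * nb f a i < (univ.filter fun y => c y = i).card ∨ nb f a i = 0) →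
  ∀ M : Submodule ℂ ((Fin k → Fin n) → ℂ), (∀ s ∈ M, Supp c a s) → (∀ s ∈ M, SymF f s) →
  (∀ Z : Matrix (Fin n) (Fin n) ℂ, Zᵀ = -Z → BD c Z → ∀ s ∈ M, act Z s ∈ M) →
  (∀ e : ℤ, 0 ≤ e → (k : ℤ) - 2 * l + 1 < e → ∀ s ∈ M, act X s = (e : ℂ) • s → s = 0) →
  M ≤ insC2 c a l

/-- The conclusion of (GQSC) for `T`: complex spaces of forms on `T` -/
def CT {n r : ℕ} (T : HS n) (c : Fin n → Fin r) (p : Fin r → ℕ) : Prop :=
  ∀ (k b l : ℕ) (a : Fin k → Fin r) (f : Fin k → Fin b), (∀ j j', f j = f j' → a j = a j') →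
  (∀ i, nb f a i ≤ p i) →
  ∀ M : Submodule ℂ ((Fin k → Fin n) → ℂ), (∀ w ∈ M, Supp c a w) → (∀ w ∈ M, SymF f w) →
  (∀ Z : Matrix (Fin n) (Fin n) ℂ, Zᵀ * mC T.Q + mC T.Q * Z = 0 → BD c Z →
    ∀ w ∈ M, act Z w ∈ M) →
  (∀ e : ℤ, 0 ≤ e → (k : ℤ) - 2 * l + 1 < e → ∀ w ∈ M, act T.x w = (e : ℂ) • w → w = 0) →
  M ≤ cspN (T.ins2 c a l)

/-- (GQSC) from orthonormal coordinates to `T`, complex spaces -/
def S_gqsc : Prop := ∀ (n r : ℕ) (T : HS n) (c : Fin n → Fin r) (p q : Fin r → ℕ), BD c T.Q →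
  BD c T.x → (∀ i, ∑ y with c y = i, (T.x * T.x) y y = 2 * (p i : ℂ)) →
  (∀ i, (univ.filter fun y => c y = i).card = 2 * p i + q i ∧ 0 < q i) → CT T c p

/-- (GHTC) from `T` to the total cohomology, complex spaces -/
def S_ghtc : Prop := ∀ (n r s m b k j : ℕ) (T : HS n) (c : Fin n → Fin r) (d : Fin s → Fin r)
  (cd : Fin s → ℕ) (a : Fin m → Fin r) (f : Fin m → Fin b) (p : Fin r → ℕ), CT T c p →
  (∀ i i', f i = f i' → a i = a i') →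
  ∀ M : Submodule ℂ ((Fin m → Fin s ⊕ Fin n) → ℂ), (∀ w ∈ M, SymF f w) →
  (∀ Z : Matrix (Fin n) (Fin n) ℂ, Zᵀ * mC T.Q + mC T.Q * Z = 0 → BD c Z →
    ∀ w ∈ M, act (fromBlocks 0 0 0 Z) w ∈ M) → (∀ w ∈ M, act (T.xS s) w ∈ M) →
  (∀ w ∈ M, ∀ J, w J ≠ 0 → (∀ i, Sum.elim d c (J i) = a i) ∧
    ∑ i, Sum.elim cd (fun _ => 1) (J i) = k ∧
    ∀ i, (univ.filter fun x : Fin b => ∃ y z, f y = x ∧ J y = Sum.inr z ∧ c z = i).card ≤ p i) →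
  (∀ e : ℤ, 0 ≤ e → (k : ℤ) - j < e → ∀ w ∈ M, act (T.xS s) w = (e : ℂ) • w → w = 0) →
  M ≤ cspN (T.coniv2 c d cd a j)

end

end Pool.Agent.W547.GHX
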